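import Pool.Agent.Lib.MP_754fa1_al.T.Fin

/-!
# Left cells under varying parameters: Coxeter systems with finite components of rank at most two

Class `Tri`: if `3 ≤ m r s < ∞` and `3 ≤ m s t < ∞` with `r, s, t` distinct then `m r t = ∞`. (All
right-angled systems, all systems in which every label `≥ 3` between distinct generators is
infinite or isolated, free products of such systems, ...) For such a system `(W, S)`, `S` finite,
and every decomposition `S = S₁ ⊔ S₂` without conjugate elements, the partition into left cells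
for `L_{a,b}` depends only on `θ = b / a`; it is constant between two consecutive critical ratios,
and at a critical ratio it is the join of the partitions on the two sides (semicontinuity).
-/

open LaurentPolynomial

namespace Pool.Agent.Results.MP_754fa1_al.DihedralComponents

open Pool.Agent.Lib.MP_754fa1_al Pool.Agent.Lib.KLT

universe u v w

variable {B : Type u} {W : Type v} [Group W] {M : CoxeterMatrix B}

/-- **Semicontinuity of left cells for the class `Tri`.** -/
theorem result [Finite B] (cs : CoxeterSystem M W)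
    (hM : ∀ r s t : B, r ≠ s → s ≠ t → r ≠ t → 3 ≤ M r s → 3 ≤ M s t → M r t = 0)
    (S₁ : Set B) (_h₁ : S₁.Nonempty) (_h₂ : S₁ᶜ.Nonempty)
    (hS : ∀ i ∈ S₁, ∀ j, j ∉ S₁ → ¬ IsConj (cs.simple i) (cs.simple j)) :
    (∀ a b : ℕ, 0 < a → 0 < b →
      ∃ (H : Type v) (_ : Ring H) (_ : Algebra Lau H), Nonempty (KL cs (wt S₁ a b) H)) ∧
    ∃ LC : ℚ → Setoid W,
      (∀ a b : ℕ, 0 < a → 0 < b → ∀ (H : Type w) [Ring H] [Algebra Lau H]
        (D : KL cs (wt S₁ a b) H), D.leftCells = LC ((b : ℚ) / (a : ℚ))) ∧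
      ∃ R : Finset ℚ,
        (∃ N : ℕ, ∀ r : ℚ, r ∈ R ↔ ∃ p q : ℕ, 0 < p ∧ p ≤ N ∧ 0 < q ∧ q ≤ N ∧
          r = (p : ℚ) / (q : ℚ)) ∧
        (∀ θ θ' : ℚ, 0 < θ → θ ≤ θ' → (∀ r ∈ R, ¬ (θ ≤ r ∧ r ≤ θ')) → LC θ = LC θ') ∧
        (∀ r ∈ R, ∀ θ θ' : ℚ, 0 < θ → θ < r → r < θ' →
          (∀ s ∈ R, θ ≤ s → s ≤ θ' → s = r) → LC r = LC θ ⊔ LC θ') := by
  obtain ⟨h1, LC, h2, N, h3, h4⟩ := final cs hM S₁ hS
  refine ⟨h1, LC, h2, (crit_finite N N).toFinset, ⟨N, fun r => ?_⟩, fun θ θ' h k l => ?_,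
    fun r hr θ θ' h k l m => ?_⟩
  · rw [Set.Finite.mem_toFinset]
    rfl
  · exact h3 θ θ' h k fun ρ hρ => l ρ ((Set.Finite.mem_toFinset _).2 hρ)
  · have hr' : Crit N N r := (Set.Finite.mem_toFinset (crit_finite N N)).1 hr
    exact h4 r hr' θ θ' h k l
      fun ρ hρ => m ρ ((Set.Finite.mem_toFinset _).2 hρ)

end Pool.Agent.Results.MP_754fa1_al.DihedralComponents
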