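import Pool.Agent.Lib.MP_754fa1_al.CE
import Pool.Agent.Lib.MP_754fa1_al.FR
import Pool.Agent.Lib.MP_754fa1_al.X1
import Pool.Agent.Lib.MP_754fa1_al.X2

/-!
# Left cells of right-angled Coxeter groups under varying parameters

For every right-angled Coxeter system `(W, S)`, `S = S₁ ⊔ S₂` finite, the partition into left cells
for the weight function `L_{a,b}` depends only on `θ = b / a`; it is constant between two consecutive
critical ratios, and at a critical ratio it is the join of the partitions on the two sides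
(semicontinuity). The critical ratios can be taken as all `p / q` with `1 ≤ p ≤ |S₁|`,
`1 ≤ q ≤ |S₂|`.
-/

open LaurentPolynomial

namespace Pool.Agent.Results.MP_754fa1_al.RightAngled

open Pool.Agent.Lib.MP_754fa1_al

universe u v w

variable {B : Type u} {W : Type v} [Group W] {M : CoxeterMatrix B}

theorem wt_pos (S₁ : Set B) {a b : ℕ} (ha : 0 < a) (hb : 0 < b) (i : B) : 0 < wt S₁ a b i := by
  unfold wt
  split_ifs <;> assumption

theorem exists_data (cs : CoxeterSystem M W) (hM : RightAngled M) (L : B → ℕ) :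
    ∃ (H : Type v) (_ : Ring H) (_ : Algebra Lau H), Nonempty (KL cs L H) := by
  obtain ⟨H, i1, i2, ⟨D⟩⟩ := exists_hecke cs hM L
  exact ⟨H, i1, i2, exists_KL cs L D⟩

/-- **Semicontinuity of left cells for right-angled Coxeter groups.** -/
theorem result [Finite B] (cs : CoxeterSystem M W) (hM : RightAngled M) (S₁ : Set B)
    (_h₁ : S₁.Nonempty) (_h₂ : S₁ᶜ.Nonempty) :
    (∀ a b : ℕ, 0 < a → 0 < b →
      ∃ (H : Type v) (_ : Ring H) (_ : Algebra Lau H), Nonempty (KL cs (wt S₁ a b) H)) ∧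
    ∃ LC : ℚ → Setoid W,
      (∀ a b : ℕ, 0 < a → 0 < b → ∀ (H : Type w) [Ring H] [Algebra Lau H]
        (D : KL cs (wt S₁ a b) H), D.leftCells = LC ((b : ℚ) / (a : ℚ))) ∧
      ∃ R : Finset ℚ,
        (∀ r : ℚ, r ∈ R ↔ ∃ p q : ℕ, 0 < p ∧ p ≤ Nat.card S₁ ∧ 0 < q ∧ q ≤ Nat.card ↑S₁ᶜ ∧
          r = (p : ℚ) / (q : ℚ)) ∧
        (∀ θ θ' : ℚ, 0 < θ → θ ≤ θ' → (∀ r ∈ R, ¬ (θ ≤ r ∧ r ≤ θ')) → LC θ = LC θ') ∧
        (∀ r ∈ R, ∀ θ θ' : ℚ, 0 < θ → θ < r → r < θ' →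
          (∀ s ∈ R, θ ≤ s → s ≤ θ' → s = r) → LC r = LC θ ⊔ LC θ') := by
  classical
  cases nonempty_fintype B
  refine ⟨fun a b _ _ => exists_data cs hM _, ?_⟩
  have hex : ∀ θ : ℚ, 0 < θ → ∃ S : Setoid W, ∀ a b : ℕ, 0 < a → 0 < b → θ = (b : ℚ) / (a : ℚ) →
      ∀ x y, S x y ↔ Cell cs (wt S₁ a b) x y := by
    intro θ hθ
    have hn : (θ.num.toNat : ℤ) = θ.num := Int.toNat_of_nonneg (Rat.num_nonneg.2 hθ.le)
    have hn0 : 0 < θ.num.toNat := by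
      have := Rat.num_pos.2 hθ
      omega
    have he : θ = ((θ.num.toNat : ℕ) : ℚ) / (θ.den : ℚ) := by
      have : ((θ.num.toNat : ℕ) : ℚ) = (θ.num : ℚ) := by exact_mod_cast hn
      rw [this, Rat.num_div_den]
    obtain ⟨H, i1, i2, ⟨D⟩⟩ := exists_data cs hM (wt S₁ θ.den θ.num.toNat)
    refine ⟨D.leftCells, ?_⟩
    intro a b ha hb hab x y
    rw [← cell_ratio cs S₁ (a := θ.den) (b := θ.num.toNat) θ.den_pos ha (he.symm.trans hab) x y]
    exact D.cell_iff (wt_pos S₁ θ.den_pos hn0) hM x y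
  have hex' : ∀ θ : ℚ, ∃ S : Setoid W, 0 < θ → ∀ a b : ℕ, 0 < a → 0 < b →
      θ = (b : ℚ) / (a : ℚ) → ∀ x y, S x y ↔ Cell cs (wt S₁ a b) x y := by
    intro θ
    by_cases hθ : 0 < θ
    · obtain ⟨S, hS⟩ := hex θ hθ
      exact ⟨S, fun _ => hS⟩
    · exact ⟨⊥, fun h => absurd h hθ⟩
  choose LC hLC using hex'
  have rep : ∀ θ : ℚ, 0 < θ → ∃ a b : ℕ, 0 < a ∧ 0 < b ∧ θ = (b : ℚ) / (a : ℚ) := by
    intro θ hθ
    have hn : (θ.num.toNat : ℤ) = θ.num := Int.toNat_of_nonneg (Rat.num_nonneg.2 hθ.le)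
    have hn0 : 0 < θ.num.toNat := by
      have := Rat.num_pos.2 hθ
      omega
    refine ⟨θ.den, θ.num.toNat, θ.den_pos, hn0, ?_⟩
    have : ((θ.num.toNat : ℕ) : ℚ) = (θ.num : ℚ) := by exact_mod_cast hn
    rw [this, Rat.num_div_den]
  refine ⟨LC, ?_, (crit_finite (Nat.card S₁) (Nat.card ↑S₁ᶜ)).toFinset, ?_, ?_, ?_⟩
  · intro a b ha hb H _ _ D
    ext x y
    rw [hLC _ (div_pos (by exact_mod_cast hb) (by exact_mod_cast ha)) a b ha hb rfl x y]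
    exact D.cell_iff (wt_pos S₁ ha hb) hM x y
  · intro r
    rw [Set.Finite.mem_toFinset]
    rfl
  · intro θ θ' hθ hle hno
    have hθ' : 0 < θ' := lt_of_lt_of_le hθ hle
    obtain ⟨a, b, ha, hb, hab⟩ := rep θ hθ
    obtain ⟨a', b', ha', hb', hab'⟩ := rep θ' hθ'
    ext x y
    rw [hLC θ hθ a b ha hb hab, hLC θ' hθ' a' b' ha' hb' hab']
    have hno' : ∀ ρ, Crit (Nat.card S₁) (Nat.card ↑S₁ᶜ) ρ → ¬ (θ ≤ ρ ∧ ρ ≤ θ') :=
      fun ρ hρ => hno ρ ((Set.Finite.mem_toFinset _).2 hρ)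
    rcases eq_or_lt_of_le hle with heq | hlt
    · exact cell_ratio cs S₁ ha ha' (by rw [← hab, ← hab', heq]) x y
    · refine cell_const cs S₁ ha hb ha' hb' ?_ x y
      intro ρ hρ hc
      rw [← hab, ← hab'] at hc
      rcases hc with hc | hc
      · exact hno' ρ hρ hc
      · linarith
  · intro r hr θ θ' hθ h1 h2 hno
    have hr0 : 0 < r := hθ.trans h1
    have hθ' : 0 < θ' := hr0.trans h2
    obtain ⟨a, b, ha, hb, hab⟩ := rep r hr0
    obtain ⟨a₁, b₁, ha₁, hb₁, hab₁⟩ := rep θ hθ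
    obtain ⟨a₂, b₂, ha₂, hb₂, hab₂⟩ := rep θ' hθ'
    obtain ⟨H, i1, i2, ⟨D⟩⟩ := exists_data cs hM (wt S₁ a b)
    refine cell_join cs S₁ ha hb ha₁ hb₁ ha₂ hb₂ (by rw [← hab, ← hab₁]; exact h1)
      (by rw [← hab, ← hab₂]; exact h2) ?_ ?_ _ _ _ (hLC r hr0 a b ha hb hab)
      (hLC θ hθ a₁ b₁ ha₁ hb₁ hab₁) (hLC θ' hθ' a₂ b₂ ha₂ hb₂ hab₂)
    · intro ρ hρ k1 k2
      rw [← hab₁] at k1
      rw [← hab₂] at k2
      rw [← hab]
      exact hno ρ ((Set.Finite.mem_toFinset _).2 hρ) k1 k2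
    · intro x u u' c1 c2 c3 c4 c5 c6
      exact D.tight_unique (wt_pos S₁ ha hb) hM c1 c2 c3 c4 c5 c6

end Pool.Agent.Results.MP_754fa1_al.RightAngled
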